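import Pool.Agent.helper24.BR.SpecA

/-!
# Row bp:SPC (MP_baa4d7_al): means of characters over a subgroup
-/

set_option autoImplicit false

namespace Pool.Agent.BR

open Pool.Agent.helper58.DC Pool.Agent.DI Pool.Agent.GR Pool.Agent.OB Pool.Agent.DR Pool.Agent.FI Pool.Agent.FI3 Pool.Agent.FI4 Pool.Agent.LE

open Classical in
/-- the idempotent of the linear character `k` of `S` -/
noncomputable def SPC_i {G : Type} [Group G] (S : Subgroup G) (k : G → ℂ) (x : G) : ℂ := if x ∈ S then k x / Nat.card S else 0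

theorem SPC_sum {G : Type} [Group G] [Finite G] (S : Subgroup G) (k : G → ℂ) (f : G → ℂ) :
    ∑ᶠ x, SPC_i S k x * f x = (∑ᶠ x ∈ (S : Set G), k x * f x) / Nat.card S := by
  classical
  have h1 : ∀ x, SPC_i S k x * f x = (Nat.card S : ℂ)⁻¹ * ∑ᶠ (_ : x ∈ (S : Set G)), k x * f x := by
    intro x
    unfold SPC_i
    by_cases hx : x ∈ S
    · rw [if_pos hx, finsum_eq_if, if_pos (show x ∈ (S : Set G) from hx)]
      ring
    · rw [if_neg hx, finsum_eq_if, if_neg (show ¬ x ∈ (S : Set G) from hx)]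
      ring
  rw [finsum_congr h1, ← mul_finsum, div_eq_inv_mul]

theorem SPC (hQEV : QEV_stmt) : SPC_stmt := by
  classical
  intro G _ _ S k hk c hc ψ hψ
  have hcard : (Nat.card S : ℂ) ≠ 0 := by
    exact_mod_cast (Nat.card_pos (α := S)).ne'
  have hcS : ∀ u ∈ S, u * c = c * u := fun u hu => Subgroup.mem_centralizer_iff.1 hc u hu
  have h1 : cv (SPC_i S k) (SPC_i S k) = SPC_i S k := by
    funext g
    unfold cv
    rw [SPC_sum S k (fun x => SPC_i S k (x⁻¹ * g))]
    by_cases hg : g ∈ S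
    · have h2 : ∑ᶠ x ∈ (S : Set G), k x * SPC_i S k (x⁻¹ * g) = ∑ᶠ x ∈ (S : Set G), k g / Nat.card S := by
        refine finsum_mem_congr rfl fun x hx => ?_
        have hx' : x⁻¹ * g ∈ S := S.mul_mem (S.inv_mem hx) hg
        unfold SPC_i
        rw [if_pos hx', mul_div_assoc', ← hk.2 x hx _ hx', mul_inv_cancel_left]
      rw [h2, finsum_mem_eq_finite_toFinset_sum _ (Set.toFinite (S : Set G)), Finset.sum_const, nsmul_eq_mul, ← Set.ncard_eq_toFinset_card (S : Set G)]
      unfold SPC_i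
      rw [if_pos hg]
      have h3 : ((S : Set G).ncard : ℂ) = (Nat.card S : ℂ) := rfl
      rw [h3]
      field_simp
    · have h2 : ∑ᶠ x ∈ (S : Set G), k x * SPC_i S k (x⁻¹ * g) = ∑ᶠ x ∈ (S : Set G), (0 : ℂ) := by
        refine finsum_mem_congr rfl fun x hx => ?_
        unfold SPC_i
        rw [if_neg, mul_zero]
        intro h3
        apply hg
        have := S.mul_mem hx h3
        rwa [mul_inv_cancel_left] at this
      rw [h2, finsum_mem_zero, zero_div]
      unfold SPC_i
      rw [if_neg hg]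
  have h2 : Inv (Subgroup.zpowers c) (SPC_i S k) := by
    intro s hs x
    have hsS : ∀ u ∈ S, s * u * s⁻¹ = u := by
      intro u hu
      have h3 : s ∈ Subgroup.centralizer (S : Set G) := (Subgroup.zpowers_le.2 hc) hs
      have h4 : u * s = s * u := Subgroup.mem_centralizer_iff.1 h3 u hu
      rw [← h4, mul_inv_cancel_right]
    by_cases hx : x ∈ S
    · rw [hsS x hx]
    · have h3 : s * x * s⁻¹ ∉ S := by
        intro h4
        apply hx
        have h5 := hsS _ h4
        have h6 : s * x * s⁻¹ = x := by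
          have h7 : s * (s * x * s⁻¹) * s⁻¹ = s * x * s⁻¹ := h5
          have h8 := mul_right_cancel h7
          exact mul_left_cancel h8
        rwa [h6] at h4
      unfold SPC_i
      rw [if_neg hx, if_neg h3]
  obtain ⟨m, hm⟩ := hQEV G ⊤ (Subgroup.zpowers c) le_top (SPC_i S k) (fun x hx => absurd (Subgroup.mem_top x) hx) h1 h2 ψ hψ
  have h3 := hm c (Subgroup.mem_zpowers c)
  have h4 : ev ψ (SPC_i S k) c = (∑ᶠ u ∈ (S : Set G), k u * ψ (u * c)) / Nat.card S := by
    unfold ev
    rw [SPC_sum S k (fun x => ψ (c * x))]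
    congr 1
    refine finsum_mem_congr rfl fun x hx => ?_
    rw [hcS x hx]
  rw [← h4, h3]
  refine finsum_mem_induction (IsIntegral ℤ) isIntegral_zero (fun _ _ h h' => h.add h') fun ψ' hψ' => ?_
  have h5 : IsIntegral ℤ ((m ψ' : ℕ) : ℂ) := by
    have h6 : ((m ψ' : ℕ) : ℂ) = algebraMap ℤ ℂ (m ψ' : ℤ) := by simp
    rw [h6]
    exact isIntegral_algebraMap
  exact h5.mul (IrrOn_int hψ' c)

end Pool.Agent.BR
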